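import Pool.Agent.helper96.SV.SpecA

set_option autoImplicit false

namespace Pool.Agent.SVA

open Polynomial Module

section TDMaux

variable {K : Type} [Fintype K] [DecidableEq K] {m : K → ℕ}

theorem TDM_ten (y : Py m) (i : K) (w : Fin (m i + 1) → ℂ) (β : Bx m) :
    ten (Function.update y i w) β = w (β i) * ∏ i' ∈ Finset.univ.erase i, y i' (β i') := by
  unfold ten
  rw [← Finset.mul_prod_erase Finset.univ _ (Finset.mem_univ i)]
  congr 1
  · simp
  · refine Finset.prod_congr rfl fun i' hi' => ?_
    rw [Function.update_of_ne (Finset.ne_of_mem_erase hi')]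

/-- the map `w ↦ ten (update y i w)` -/
noncomputable def TDM_L (y : Py m) (i : K) : (Fin (m i + 1) → ℂ) →ₗ[ℂ] (Bx m → ℂ) where
  toFun w := ten (Function.update y i w)
  map_add' u v := by
    funext β
    simp only [Pi.add_apply, TDM_ten, add_mul]
  map_smul' s v := by
    funext β
    simp only [Pi.smul_apply, TDM_ten, smul_eq_mul, RingHom.id_apply, mul_assoc]

/-- the sum map -/
noncomputable def TDM_T (y : Py m) : ((i : K) → Fin (m i + 1) → ℂ) →ₗ[ℂ] (Bx m → ℂ) :=
  ∑ i, (TDM_L y i) ∘ₗ LinearMap.proj i

theorem TDM_T_apply (y : Py m) (w : (i : K) → Fin (m i + 1) → ℂ) :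
    TDM_T y w = ∑ i, ten (Function.update y i (w i)) := by
  simp [TDM_T, TDM_L, LinearMap.sum_apply]

theorem TDM_range (y : Py m) : Tan y = LinearMap.range (TDM_T y) := by
  apply le_antisymm
  · refine Submodule.span_le.mpr ?_
    rintro z ⟨i, w, rfl⟩
    refine ⟨Pi.single i w, ?_⟩
    rw [TDM_T_apply, Finset.sum_eq_single i]
    · rw [Pi.single_eq_same]
    · intro j _ hj
      funext β
      rw [TDM_ten, Pi.single_eq_of_ne hj]
      simp
    · intro h
      exact absurd (Finset.mem_univ i) h
  · rintro _ ⟨w, rfl⟩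
    rw [TDM_T_apply]
    exact Submodule.sum_mem _ fun i _ => Submodule.subset_span ⟨i, w i, rfl⟩

/-- the map `c ↦ (c i • y i)` -/
noncomputable def TDM_D (y : Py m) : (K → ℂ) →ₗ[ℂ] ((i : K) → Fin (m i + 1) → ℂ) where
  toFun c := fun i => c i • y i
  map_add' u v := by
    funext i
    simp only [Pi.add_apply, add_smul]
  map_smul' s v := by
    funext i
    simp only [Pi.smul_apply, smul_eq_mul, RingHom.id_apply, mul_smul]

/-- the sum functional -/
noncomputable def TDM_S (K : Type) [Fintype K] : (K → ℂ) →ₗ[ℂ] ℂ := ∑ i, LinearMap.proj i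

theorem TDM_S_apply (c : K → ℂ) : TDM_S K c = ∑ i, c i := by
  simp [TDM_S, LinearMap.sum_apply]

theorem TDM_ker (y : Py m) (hy : ∀ i, y i ≠ 0) :
    LinearMap.ker (TDM_T y) = (LinearMap.ker (TDM_S K)).map (TDM_D y) := by
  have h0 : ∀ i, ∃ k, y i k ≠ 0 := fun i => Function.ne_iff.mp (hy i)
  choose b hb using h0
  have hten : ten y b ≠ 0 := Finset.prod_ne_zero_iff.mpr fun i _ => hb i
  have hscal : ∀ c : K → ℂ, TDM_T y (TDM_D y c) = (∑ i, c i) • ten y := by
    intro c
    rw [TDM_T_apply, Finset.sum_smul]
    refine Finset.sum_congr rfl fun i _ => ?_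
    have h1 : ten (Function.update y i (TDM_D y c i)) = TDM_L y i (c i • y i) := rfl
    rw [h1, map_smul]
    have h2 : TDM_L y i (y i) = ten (Function.update y i (y i)) := rfl
    rw [h2, Function.update_eq_self]
  apply le_antisymm
  · intro w hw
    rw [LinearMap.mem_ker] at hw
    have key : ∀ j, ∃ c : ℂ, w j = c • y j := by
      intro j
      have hP : (∏ i' ∈ Finset.univ.erase j, y i' (b i')) ≠ 0 :=
        Finset.prod_ne_zero_iff.mpr fun i _ => hb i
      set P := ∏ i' ∈ Finset.univ.erase j, y i' (b i') with hPdef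
      set R := ∑ i ∈ Finset.univ.erase j, w i (b i) *
        ∏ i' ∈ (Finset.univ.erase i).erase j, y i' (b i') with hR
      refine ⟨-(R / P), ?_⟩
      funext k
      have h1 : TDM_T y w (Function.update b j k) = 0 := by rw [hw]; rfl
      rw [TDM_T_apply, Finset.sum_apply, ← Finset.add_sum_erase Finset.univ _ (Finset.mem_univ j)]
        at h1
      have h2 : ten (Function.update y j (w j)) (Function.update b j k) = w j k * P := by
        rw [TDM_ten, Function.update_self]
        congr 1
        refine Finset.prod_congr rfl fun i' hi' => ?_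
        rw [Function.update_of_ne (Finset.ne_of_mem_erase hi')]
      have h3 : ∑ i ∈ Finset.univ.erase j,
          ten (Function.update y i (w i)) (Function.update b j k) = y j k * R := by
        rw [hR, Finset.mul_sum]
        refine Finset.sum_congr rfl fun i hi => ?_
        have hij : i ≠ j := Finset.ne_of_mem_erase hi
        rw [TDM_ten, Function.update_of_ne hij,
          ← Finset.mul_prod_erase (Finset.univ.erase i) _
            (Finset.mem_erase.mpr ⟨hij.symm, Finset.mem_univ j⟩), Function.update_self]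
        have h4 : ∏ x ∈ (Finset.univ.erase i).erase j, y x (Function.update b j k x) =
            ∏ x ∈ (Finset.univ.erase i).erase j, y x (b x) := by
          refine Finset.prod_congr rfl fun i' hi' => ?_
          rw [Function.update_of_ne (Finset.ne_of_mem_erase hi')]
        rw [h4]
        ring
      rw [h2, h3] at h1
      rw [Pi.smul_apply, smul_eq_mul]
      field_simp
      linear_combination h1
    choose c hc using key
    have hwc : w = TDM_D y c := funext hc
    refine ⟨c, ?_, hwc.symm⟩
    rw [hwc, hscal] at hw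
    have h5 := congrFun hw b
    rw [Pi.smul_apply, smul_eq_mul, Pi.zero_apply] at h5
    show TDM_S K c = 0
    rw [TDM_S_apply]
    exact (mul_eq_zero.mp h5).resolve_right hten
  · rintro _ ⟨c, hc, rfl⟩
    have hc' : TDM_S K c = 0 := hc
    rw [TDM_S_apply] at hc'
    rw [LinearMap.mem_ker, hscal, hc', zero_smul]

theorem TDM_D_inj (y : Py m) (hy : ∀ i, y i ≠ 0) : Function.Injective (TDM_D y) := by
  intro c d h
  funext i
  have h1 : c i • y i = d i • y i := congrFun h i
  exact smul_left_injective ℂ (hy i) h1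

theorem TDM_main [Nonempty K] (y : Py m) (hy : ∀ i, y i ≠ 0) :
    finrank ℂ (Tan y) + 1 = DD m := by
  have h1 := LinearMap.finrank_range_add_finrank_ker (TDM_T y)
  rw [← TDM_range, TDM_ker y hy] at h1
  have h2 : finrank ℂ ((LinearMap.ker (TDM_S K)).map (TDM_D y)) =
      finrank ℂ (LinearMap.ker (TDM_S K)) :=
    (Submodule.equivMapOfInjective (TDM_D y) (TDM_D_inj y hy) _).finrank_eq.symm
  have h3 := LinearMap.finrank_range_add_finrank_ker (TDM_S K)
  have h4 : LinearMap.range (TDM_S K) = ⊤ := by
    rw [LinearMap.range_eq_top]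
    intro t
    obtain ⟨i⟩ := (inferInstance : Nonempty K)
    refine ⟨Pi.single i t, ?_⟩
    rw [TDM_S_apply]
    simp
  rw [h4, finrank_top, Module.finrank_self, Module.finrank_fintype_fun_eq_card] at h3
  rw [h2, Module.finrank_pi_fintype] at h1
  simp only [Module.finrank_fintype_fun_eq_card, Fintype.card_fin, Finset.sum_add_distrib,
    Finset.sum_const, Finset.card_univ, smul_eq_mul, mul_one] at h1
  unfold DD
  omega

theorem TDM_zero (y : Py m) (i₀ : K) (hy : y i₀ = 0) : finrank ℂ (Tan y) + 1 ≤ DD m := by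
  have h1 : Tan y ≤ LinearMap.range (TDM_L y i₀) := by
    refine Submodule.span_le.mpr ?_
    rintro z ⟨i, w, rfl⟩
    by_cases hi : i = i₀
    · subst hi
      exact ⟨w, rfl⟩
    · have h2 : ten (Function.update y i w) = 0 := by
        funext β
        rw [TDM_ten, Finset.prod_eq_zero (i := i₀)
          (Finset.mem_erase.mpr ⟨fun h => hi h.symm, Finset.mem_univ _⟩)]
        · simp
        · rw [hy]; rfl
      rw [h2]
      exact Submodule.zero_mem _
  have h2 := Submodule.finrank_mono h1
  have h3 := LinearMap.finrank_range_le (TDM_L y i₀)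
  rw [Module.finrank_fintype_fun_eq_card, Fintype.card_fin] at h3
  have h4 : m i₀ ≤ ∑ i, m i := Finset.single_le_sum (fun i _ => Nat.zero_le _) (Finset.mem_univ i₀)
  unfold DD
  omega

end TDMaux

theorem TDM : TDM_stmt := by
  intro K _ _ _ m y
  refine ⟨?_, TDM_main y⟩
  by_cases h : ∀ i, y i ≠ 0
  · exact (TDM_main y h).le
  · push Not at h
    obtain ⟨i₀, hi₀⟩ := h
    exact TDM_zero y i₀ hi₀

end Pool.Agent.SVA
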